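import Mathlib

/-!
# Perspectivity in the lattice of finite and cofinite dimensional subspaces

`Fin F V` is the sublattice of all subspaces of `V` of finite dimension or finite codimension.
-/

set_option autoImplicit false

namespace Pool.Agent.Q15.CQ

open Submodule

variable {F V : Type} [Field F] [AddCommGroup V] [Module F V]

/-- finite dimensional or of finite codimension -/
def FC (U : Submodule F V) : Prop := FiniteDimensional F U ∨ FiniteDimensional F (V ⧸ U)

theorem quot_mono {U W : Submodule F V} (h : U ≤ W) (hU : FiniteDimensional F (V ⧸ U)) :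
    FiniteDimensional F (V ⧸ W) :=
  Module.Finite.of_surjective (Submodule.factor h) (Submodule.factor_surjective h)

theorem quot_comap (g : V →ₗ[F] V) {H : Submodule F V} (hH : FiniteDimensional F (V ⧸ H)) :
    FiniteDimensional F (V ⧸ H.comap g) := by
  refine FiniteDimensional.of_injective (Submodule.mapQ (H.comap g) H g le_rfl) ?_
  rw [← LinearMap.ker_eq_bot, Submodule.ker_mapQ]
  simp

theorem quot_inf {U W : Submodule F V} (hU : FiniteDimensional F (V ⧸ U))
    (hW : FiniteDimensional F (V ⧸ W)) : FiniteDimensional F (V ⧸ (U ⊓ W)) := by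
  refine FiniteDimensional.of_injective
    ((U ⊓ W).liftQ (LinearMap.prod U.mkQ W.mkQ) ?_) ?_
  · intro x hx
    rw [LinearMap.ker_prod, Submodule.ker_mkQ, Submodule.ker_mkQ]
    exact hx
  · rw [← LinearMap.ker_eq_bot, Submodule.ker_liftQ_eq_bot]
    intro x hx
    rw [LinearMap.ker_prod, Submodule.ker_mkQ, Submodule.ker_mkQ] at hx
    exact hx

theorem FC.sup {U W : Submodule F V} (hU : FC U) (hW : FC W) : FC (U ⊔ W) := by
  rcases hU with hU | hU
  · rcases hW with hW | hW
    · left; infer_instance
    · right; exact quot_mono le_sup_right hW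
  · right; exact quot_mono le_sup_left hU

theorem FC.inf {U W : Submodule F V} (hU : FC U) (hW : FC W) : FC (U ⊓ W) := by
  rcases hU with hU | hU
  · left; exact Submodule.finiteDimensional_of_le (inf_le_left : U ⊓ W ≤ U)
  · rcases hW with hW | hW
    · left; exact Submodule.finiteDimensional_of_le (inf_le_right : U ⊓ W ≤ W)
    · right; exact quot_inf hU hW

/-- the rank of `a / (a ∩ b)` -/
noncomputable def Rk (a b : Submodule F V) : Cardinal := Module.rank F (a ⧸ b.comap a.subtype)

theorem rank_eq (x z : Submodule F V) :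
    Module.rank F x = Rk (x ⊔ z) z + Module.rank F (x ⊓ z : Submodule F V) := by
  have h1 := Submodule.rank_quotient_add_rank ((x ⊓ z).comap x.subtype)
  have h2 : Module.rank F ((x ⊓ z).comap x.subtype) = Module.rank F (x ⊓ z : Submodule F V) :=
    (Submodule.comapSubtypeEquivOfLe (inf_le_left : x ⊓ z ≤ x)).rank_eq
  have h3 := (LinearMap.quotientInfEquivSupQuotient x z).rank_eq
  rw [← Submodule.comap_inf] at h3
  rw [← h1, h2, h3]
  rfl

theorem Rk_inf (x z : Submodule F V) : Rk (x ⊔ z) x = Rk z (x ⊓ z) := by
  have h3 := (LinearMap.quotientInfEquivSupQuotient z x).rank_eq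
  unfold Rk
  rw [sup_comm x z, inf_comm x z]
  exact h3.symm

theorem rank_quot (x s : Submodule F V) (h : x ≤ s) :
    Module.rank F (V ⧸ x) = Module.rank F (V ⧸ s) + Rk s x := by
  have h1 := Submodule.rank_quotient_add_rank (s.map x.mkQ)
  have h2 := (Submodule.quotientQuotientEquivQuotient x s h).rank_eq
  have h3 : Module.rank F (s.map x.mkQ) = Rk s x := by
    unfold Rk
    have e1 : (x.comap s.subtype) = LinearMap.ker (x.mkQ.comp s.subtype) := by
      rw [LinearMap.ker_comp, Submodule.ker_mkQ]
    have e2 : LinearMap.range (x.mkQ.comp s.subtype) = s.map x.mkQ := by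
      rw [LinearMap.range_comp, Submodule.range_subtype]
    rw [← e2, e1]
    exact (LinearMap.quotKerEquivRange (x.mkQ.comp s.subtype)).rank_eq.symm
  rw [← h1, h2, h3]

/-- perspective subspaces have the same dimension and the same codimension -/
theorem persp {x w z : Submodule F V} (h1 : x ⊔ z = w ⊔ z) (h2 : x ⊓ z = w ⊓ z) :
    Module.rank F x = Module.rank F w ∧ Module.rank F (V ⧸ x) = Module.rank F (V ⧸ w) := by
  constructor
  · rw [rank_eq x z, rank_eq w z, h1, h2]
  · rw [rank_quot x (x ⊔ z) le_sup_left, rank_quot w (w ⊔ z) le_sup_left, Rk_inf, Rk_inf, h1, h2]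

theorem eq_of_rank {x y : Submodule F V} (hxy : x ≤ y) (h : FC x)
    (h1 : Module.rank F x = Module.rank F y)
    (h2 : Module.rank F (V ⧸ x) = Module.rank F (V ⧸ y)) : x = y := by
  rcases h with h | h
  · have : FiniteDimensional F y := by
      have h4 : Module.rank F x < Cardinal.aleph0 := Module.rank_lt_aleph0 F x
      rw [h1] at h4
      exact Module.rank_lt_aleph0_iff.mp h4
    refine Submodule.eq_of_le_of_finrank_eq hxy ?_
    unfold Module.finrank
    rw [h1]
  · have hy : FiniteDimensional F (V ⧸ y) := quot_mono hxy h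
    have h3 : Module.finrank F (V ⧸ x) = Module.finrank F (V ⧸ y) := by
      unfold Module.finrank
      rw [h2]
    have h4 : Function.Injective (Submodule.factor hxy) :=
      (LinearMap.injective_iff_surjective_of_finrank_eq_finrank h3).mpr
        (Submodule.factor_surjective hxy)
    refine le_antisymm hxy fun v hv => ?_
    have h5 : Submodule.factor hxy (x.mkQ v) = Submodule.factor hxy 0 := by
      rw [map_zero]
      simpa using hv
    have h6 := h4 h5
    simpa using h6

end Pool.Agent.Q15.CQ
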