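import Pool.Agent.Q15.CQ.A1

/-!
# No complete lattice with the modular law and two-step perspectivity finiteness contains the
lattice of finite and cofinite dimensional subspaces
-/

set_option autoImplicit false

namespace Pool.Agent.Q15.CQ

open Submodule

universe u

section

variable (F V : Type) [Field F] [AddCommGroup V] [Module F V]

/-- the subspaces of finite dimension or finite codimension -/
def FCL : Type := {U : Submodule F V // FC U}

noncomputable instance : Lattice (FCL F V) :=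
  Subtype.lattice (fun _ _ h1 h2 => FC.sup h1 h2) (fun _ _ h1 h2 => FC.inf h1 h2)

end

variable {F V : Type} [Field F] [AddCommGroup V] [Module F V]

/-- the member of the lattice given by a subspace -/
def mk (U : Submodule F V) (h : FC U) : FCL F V := ⟨U, h⟩

theorem mk_sup (U W : Submodule F V) (hU : FC U) (hW : FC W) :
    mk U hU ⊔ mk W hW = mk (U ⊔ W) (hU.sup hW) := rfl

theorem mk_inf (U W : Submodule F V) (hU : FC U) (hW : FC W) :
    mk U hU ⊓ mk W hW = mk (U ⊓ W) (hU.inf hW) := rfl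

theorem mk_le {U W : Submodule F V} {hU : FC U} {hW : FC W} :
    mk U hU ≤ mk W hW ↔ U ≤ W := Iff.rfl

/-- the lattice is modular -/
theorem modular (a b c : FCL F V) (h : a ≤ c) : (a ⊔ b) ⊓ c = a ⊔ (b ⊓ c) := by
  obtain ⟨A, hA⟩ := a
  obtain ⟨B, hB⟩ := b
  obtain ⟨C, hC⟩ := c
  have h' : A ≤ C := h
  refine Subtype.ext ?_
  change (A ⊔ B) ⊓ C = A ⊔ (B ⊓ C)
  exact sup_inf_assoc_of_le B h'

/-- two-step perspectivity in the lattice of subspaces of finite dimension or codimension -/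
theorem finiteness (x y z w z' : FCL F V) (h1 : x ⊔ z' = w ⊔ z') (h2 : x ⊓ z' = w ⊓ z')
    (h3 : w ⊔ z = y ⊔ z) (h4 : w ⊓ z = y ⊓ z) (h5 : x ≤ y) : x = y := by
  obtain ⟨x, hx⟩ := x
  obtain ⟨y, hy⟩ := y
  obtain ⟨z, hz⟩ := z
  obtain ⟨w, hw⟩ := w
  obtain ⟨z', hz'⟩ := z'
  have e1 : x ⊔ z' = w ⊔ z' := congrArg Subtype.val h1
  have e2 : x ⊓ z' = w ⊓ z' := congrArg Subtype.val h2
  have e3 : w ⊔ z = y ⊔ z := congrArg Subtype.val h3
  have e4 : w ⊓ z = y ⊓ z := congrArg Subtype.val h4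
  have p1 := persp e1 e2
  have p2 := persp e3 e4
  exact Subtype.ext (eq_of_rank h5 hx (p1.1.trans p2.1) (p1.2.trans p2.2))

/-- a projection for two disjoint subspaces -/
theorem exists_proj {U W : Submodule F V} (h : U ⊓ W = ⊥) :
    ∃ π : V →ₗ[F] V, (∀ u ∈ U, π u = u) ∧ ∀ w ∈ W, π w = 0 := by
  obtain ⟨D, hD⟩ := Submodule.exists_isCompl (U ⊔ W)
  have hc : IsCompl U (W ⊔ D) := by
    constructor
    · rw [disjoint_iff]
      refine le_antisymm ?_ bot_le
      intro v hv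
      obtain ⟨hv1, hv2⟩ := Submodule.mem_inf.mp hv
      obtain ⟨w, hw, d, hd, e⟩ := Submodule.mem_sup.mp hv2
      have h1 : d ∈ (U ⊔ W) ⊓ D := by
        refine ⟨?_, hd⟩
        have h2 : d = v - w := by rw [← e]; abel
        rw [h2]
        exact Submodule.sub_mem _ (Submodule.mem_sup_left hv1) (Submodule.mem_sup_right hw)
      rw [hD.inf_eq_bot] at h1
      have h3 : d = 0 := by simpa using h1
      rw [h3, add_zero] at e
      rw [← h]
      exact ⟨hv1, e ▸ hw⟩
    · rw [codisjoint_iff, ← sup_assoc]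
      exact hD.sup_eq_top
  refine ⟨U.subtype.comp (U.projectionOnto (W ⊔ D) hc), ?_, ?_⟩
  · intro u hu
    have := Submodule.linearProjOfIsCompl_apply_left hc ⟨u, hu⟩
    simp only [LinearMap.comp_apply]
    rw [this]
    rfl
  · intro w hw
    have hw' : w ∈ W ⊔ D := Submodule.mem_sup_left hw
    simp only [LinearMap.comp_apply]
    rw [(Submodule.linearProjOfIsCompl_apply_eq_zero_iff hc).mpr hw', map_zero]

section

variable {K : Type u} [CompleteLattice K] (f : FCL F V → K)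

/-- the join of the finite dimensional subspaces below `U` -/
def lo (U : Submodule F V) : K :=
  sSup {a | ∃ (A : Submodule F V) (h : FC A), FiniteDimensional F A ∧ A ≤ U ∧ a = f (mk A h)}

/-- the meet of the subspaces of finite codimension above `U` -/
def hi (U : Submodule F V) : K :=
  sInf {a | ∃ (A : Submodule F V) (h : FC A), FiniteDimensional F (V ⧸ A) ∧ U ≤ A ∧
    a = f (mk A h)}

theorem le_lo {A U : Submodule F V} (h : FC A) (hA : FiniteDimensional F A) (hU : A ≤ U) :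
    f (mk A h) ≤ lo f U := le_sSup ⟨A, h, hA, hU, rfl⟩

theorem hi_le {A U : Submodule F V} (h : FC A) (hA : FiniteDimensional F (V ⧸ A)) (hU : U ≤ A) :
    hi f U ≤ f (mk A h) := sInf_le ⟨A, h, hA, hU, rfl⟩

theorem lo_mono {U W : Submodule F V} (h : U ≤ W) : lo f U ≤ lo f W := by
  refine sSup_le_sSup ?_
  rintro a ⟨A, h1, h2, h3, e⟩
  exact ⟨A, h1, h2, h3.trans h, e⟩

theorem hi_mono {U W : Submodule F V} (h : U ≤ W) : hi f U ≤ hi f W := by
  refine sInf_le_sInf ?_
  rintro a ⟨A, h1, h2, h3, e⟩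
  exact ⟨A, h1, h2, h.trans h3, e⟩

variable (hsup : ∀ a b, f (a ⊔ b) = f a ⊔ f b) (hinf : ∀ a b, f (a ⊓ b) = f a ⊓ f b)

include hsup in
theorem f_mono {a b : FCL F V} (h : a ≤ b) : f a ≤ f b := by
  have h1 := hsup a b
  rw [sup_eq_right.mpr h] at h1
  rw [h1]
  exact le_sup_left

include hsup in
theorem lo_le_hi (U : Submodule F V) : lo f U ≤ hi f U := by
  refine sSup_le ?_
  rintro a ⟨A, hA, hA2, hA3, rfl⟩
  refine le_sInf ?_
  rintro b ⟨B, hB, hB2, hB3, rfl⟩
  exact f_mono f hsup (mk_le.mpr (hA3.trans hB3))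

include hsup in
theorem lo_sup {U W : Submodule F V} (h : U ⊓ W = ⊥) : lo f (U ⊔ W) = lo f U ⊔ lo f W := by
  refine le_antisymm ?_ (sup_le (lo_mono f le_sup_left) (lo_mono f le_sup_right))
  refine sSup_le ?_
  rintro a ⟨A, hA, hA2, hA3, rfl⟩
  obtain ⟨π, h1, h2⟩ := exists_proj h
  have f1 : FiniteDimensional F (A.map π) := inferInstance
  have f2 : FiniteDimensional F (A.map (LinearMap.id - π)) := inferInstance
  have key : ∀ v ∈ A, π v ∈ U ∧ v - π v ∈ W := by
    intro v hv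
    obtain ⟨p, hp, q, hq, e⟩ := Submodule.mem_sup.mp (hA3 hv)
    have h3 : π v = p := by rw [← e, map_add, h1 p hp, h2 q hq, add_zero]
    rw [h3]
    refine ⟨hp, ?_⟩
    have : v - p = q := by rw [← e]; abel
    rw [this]
    exact hq
  have g1 : A.map π ≤ U := by
    rintro _ ⟨v, hv, rfl⟩
    exact (key v hv).1
  have g2 : A.map (LinearMap.id - π) ≤ W := by
    rintro _ ⟨v, hv, rfl⟩
    exact (key v hv).2
  have g3 : A ≤ A.map π ⊔ A.map (LinearMap.id - π) := by
    intro v hv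
    have h4 : v = π v + (LinearMap.id - π : V →ₗ[F] V) v := by simp
    rw [h4]
    exact Submodule.add_mem_sup (Submodule.mem_map_of_mem hv) (Submodule.mem_map_of_mem hv)
  calc f (mk A hA) ≤ f (mk (A.map π) (Or.inl f1) ⊔ mk (A.map (LinearMap.id - π)) (Or.inl f2)) :=
        f_mono f hsup (mk_le.mpr g3)
    _ = f (mk (A.map π) (Or.inl f1)) ⊔ f (mk (A.map (LinearMap.id - π)) (Or.inl f2)) := hsup _ _
    _ ≤ _ := sup_le_sup (le_lo f _ f1 g1) (le_lo f _ f2 g2)

include hinf in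
theorem hi_inf {U W : Submodule F V} (h : U ⊓ W = ⊥) : hi f U ⊓ hi f W ≤ hi f ⊥ := by
  refine le_sInf ?_
  rintro b ⟨H, hH, hH2, -, rfl⟩
  obtain ⟨π, h1, h2⟩ := exists_proj h
  have f1 : FiniteDimensional F (V ⧸ H.comap (LinearMap.id - π)) := quot_comap _ hH2
  have f2 : FiniteDimensional F (V ⧸ H.comap π) := quot_comap _ hH2
  have g1 : U ≤ H.comap (LinearMap.id - π) := by
    intro u hu
    rw [Submodule.mem_comap]
    have : (LinearMap.id - π : V →ₗ[F] V) u = 0 := by simp [h1 u hu]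
    rw [this]
    exact Submodule.zero_mem _
  have g2 : W ≤ H.comap π := by
    intro w hw
    rw [Submodule.mem_comap, h2 w hw]
    exact Submodule.zero_mem _
  have g3 : H.comap (LinearMap.id - π) ⊓ H.comap π ≤ H := by
    rintro v ⟨hv1, hv2⟩
    have h4 : v = (LinearMap.id - π : V →ₗ[F] V) v + π v := by simp
    rw [h4]
    exact Submodule.add_mem _ hv1 hv2
  calc hi f U ⊓ hi f W ≤ f (mk _ (Or.inr f1)) ⊓ f (mk _ (Or.inr f2)) :=
        inf_le_inf (hi_le f _ f1 g1) (hi_le f _ f2 g2)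
    _ = f (mk _ (Or.inr f1) ⊓ mk _ (Or.inr f2)) := (hinf _ _).symm
    _ ≤ f (mk H hH) := by
      have hm : ∀ a b : FCL F V, a ≤ b → f a ≤ f b := by
        intro a b hab
        have h1 := hinf a b
        rw [inf_eq_left.mpr hab] at h1
        rw [h1]
        exact inf_le_right
      exact hm _ _ (mk_le.mpr g3)

variable (hmod : ∀ a b c : K, a ≤ c → (a ⊔ b) ⊓ c = a ⊔ (b ⊓ c))

include hsup hinf hmod in
/-- complements in a pair of disjoint subspaces, modulo the part at infinity -/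
theorem compl_pair {U W : Submodule F V} (h : U ⊓ W = ⊥) (n : K) (hn : n = lo f ⊤ ⊓ hi f ⊥)
    (hn2 : n ≤ lo f (U ⊔ W)) :
    (lo f U ⊔ n) ⊔ (lo f W ⊔ n) = lo f (U ⊔ W) ∧ (lo f U ⊔ n) ⊓ (lo f W ⊔ n) = n := by
  constructor
  · rw [lo_sup f hsup h] at hn2 ⊢
    refine le_antisymm ?_ ?_
    · exact sup_le (sup_le le_sup_left hn2) (sup_le le_sup_right hn2)
    · exact sup_le_sup le_sup_left le_sup_left
  · have h1 : (n ⊔ lo f U) ⊓ (lo f W ⊔ n) = n ⊔ (lo f U ⊓ (lo f W ⊔ n)) :=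
      hmod n (lo f U) (lo f W ⊔ n) le_sup_right
    rw [sup_comm (lo f U) n, h1]
    refine le_antisymm (sup_le le_rfl ?_) le_sup_left
    have h2 : lo f W ⊔ n ≤ hi f W := by
      refine sup_le (lo_le_hi f hsup W) ?_
      rw [hn]
      exact inf_le_right.trans (hi_mono f bot_le)
    have h3 : lo f U ⊓ (lo f W ⊔ n) ≤ hi f ⊥ :=
      (inf_le_inf (lo_le_hi f hsup U) h2).trans (hi_inf f hinf h)
    rw [hn]
    exact le_inf (inf_le_left.trans (lo_mono f le_top)) (by rw [← hn]; exact h3)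

end

end Pool.Agent.Q15.CQ
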