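import Pool.Agent.Q15.CQ.A2

/-!
# The contradiction
-/

set_option autoImplicit false

namespace Pool.Agent.Q15.CQ

open Submodule

universe u

variable {F W : Type} [Field F] [AddCommGroup W] [Module F W]

/-- the graph `{(S b, b)}` -/
def Gr (S : W →ₗ[F] W) : Submodule F (W × W) := LinearMap.range (S.prod LinearMap.id)

theorem mem_Gr {S : W →ₗ[F] W} {p : W × W} : p ∈ Gr S ↔ p.1 = S p.2 := by
  constructor
  · rintro ⟨b, rfl⟩
    rfl
  · intro h
    refine ⟨p.2, ?_⟩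
    refine Prod.ext ?_ rfl
    exact h.symm

/-- `{(S a, b)}` -/
def Pr (S : W →ₗ[F] W) : Submodule F (W × W) := Submodule.prod (LinearMap.range S) ⊤

theorem prod_inf_Gr (S : W →ₗ[F] W) (R : Submodule F W) :
    Submodule.prod R ⊥ ⊓ Gr S = ⊥ := by
  refine le_antisymm ?_ bot_le
  rintro ⟨a, b⟩ ⟨h1, h2⟩
  have h3 : b = 0 := h1.2
  have h4 : a = S b := mem_Gr.mp h2
  rw [h3, map_zero] at h4
  rw [h3, h4]
  exact Submodule.zero_mem _

theorem bot_prod_inf_Gr (S : W →ₗ[F] W) (hS : Function.Injective S) :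
    Submodule.prod ⊥ ⊤ ⊓ Gr S = (⊥ : Submodule F (W × W)) := by
  refine le_antisymm ?_ bot_le
  rintro ⟨a, b⟩ ⟨h1, h2⟩
  have h3 : a = 0 := h1.1
  have h4 : a = S b := mem_Gr.mp h2
  have h5 : b = 0 := hS (by rw [← h4, h3, map_zero])
  rw [h3, h5]
  exact Submodule.zero_mem _

theorem range_sup_Gr (S : W →ₗ[F] W) :
    Submodule.prod (LinearMap.range S) ⊥ ⊔ Gr S = Pr S := by
  refine le_antisymm (sup_le ?_ ?_) ?_
  · rintro ⟨a, b⟩ ⟨h1, h2⟩
    exact ⟨h1, trivial⟩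
  · rintro ⟨a, b⟩ h
    exact ⟨⟨b, (mem_Gr.mp h).symm⟩, trivial⟩
  · rintro ⟨a, b⟩ ⟨h1, -⟩
    have h2 : ((a, b) : W × W) = (a - S b, 0) + (S b, b) := by simp
    rw [h2]
    refine Submodule.add_mem_sup ⟨?_, rfl⟩ (mem_Gr.mpr rfl)
    exact Submodule.sub_mem _ h1 ⟨b, rfl⟩

theorem bot_sup_Gr (S : W →ₗ[F] W) :
    Submodule.prod ⊥ ⊤ ⊔ Gr S = Pr S := by
  refine le_antisymm (sup_le ?_ ?_) ?_
  · rintro ⟨a, b⟩ ⟨h1, h2⟩
    have h3 : a = 0 := h1
    refine ⟨?_, trivial⟩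
    change a ∈ LinearMap.range S
    rw [h3]
    exact Submodule.zero_mem _
  · rintro ⟨a, b⟩ h
    exact ⟨⟨b, (mem_Gr.mp h).symm⟩, trivial⟩
  · rintro ⟨a, b⟩ ⟨⟨c, h1⟩, -⟩
    have h2 : ((a, b) : W × W) = (0, b - c) + (S c, c) := by
      refine Prod.ext ?_ ?_
      · simpa using h1.symm
      · simp
    rw [h2]
    exact Submodule.add_mem_sup ⟨rfl, trivial⟩ (mem_Gr.mpr rfl)

theorem Pr_id : Pr (LinearMap.id : W →ₗ[F] W) = ⊤ := by
  refine eq_top_iff.mpr ?_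
  rintro ⟨a, b⟩ -
  exact ⟨⟨a, rfl⟩, trivial⟩

/-- the statement on complete lattices -/
theorem main {K : Type u} [CompleteLattice K] (f : FCL F (W × W) → K)
    (hsup : ∀ a b, f (a ⊔ b) = f a ⊔ f b) (hinf : ∀ a b, f (a ⊓ b) = f a ⊓ f b)
    (hf : Function.Injective f)
    (hmod : ∀ a b c : K, a ≤ c → (a ⊔ b) ⊓ c = a ⊔ (b ⊓ c))
    (hdf : ∀ x y z w z' : K, x ⊔ z' = w ⊔ z' → x ⊓ z' = w ⊓ z' → w ⊔ z = y ⊔ z →
      w ⊓ z = y ⊓ z → x ≤ y → x = y)
    (S : W →ₗ[F] W) (hS : Function.Injective S) (e : W) (he : e ∉ LinearMap.range S)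
    (hfin : FiniteDimensional F ((W × W) ⧸ Pr S))
    (hspan : Pr S ⊔ (F ∙ ((e, 0) : W × W)) = ⊤) : False := by
  classical
  -- the point `e`
  have fe : FiniteDimensional F (F ∙ ((e, 0) : W × W)) := inferInstance
  have heq : f (mk (F ∙ ((e, 0) : W × W)) (Or.inl fe)) ⊓ f (mk (Pr S) (Or.inr hfin)) ≤
      f (mk ⊥ (Or.inl inferInstance)) := by
    rw [← hinf, mk_inf]
    have h1 : (F ∙ ((e, 0) : W × W)) ⊓ Pr S = ⊥ := by
      refine le_antisymm ?_ bot_le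
      rintro v ⟨h1, h2⟩
      obtain ⟨c, rfl⟩ := Submodule.mem_span_singleton.mp h1
      by_cases hc : c = 0
      · rw [hc, zero_smul]; exact Submodule.zero_mem _
      · exfalso
        apply he
        have h3 : c • e ∈ LinearMap.range S := h2.1
        have h4 : e = c⁻¹ • (c • e) := by rw [smul_smul, inv_mul_cancel₀ hc, one_smul]
        rw [h4]
        exact Submodule.smul_mem _ _ h3
    have h2 : mk ((F ∙ ((e, 0) : W × W)) ⊓ Pr S) (FC.inf (Or.inl fe) (Or.inr hfin)) =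
        mk ⊥ (Or.inl inferInstance) := Subtype.ext h1
    rw [h2]
  obtain ⟨n, hn⟩ : ∃ n, n = lo f ⊤ ⊓ hi f ⊥ := ⟨_, rfl⟩
  have hbotlo : ∀ U : Submodule F (W × W), f (mk ⊥ (Or.inl inferInstance)) ≤ lo f U := fun U =>
    le_lo f _ inferInstance bot_le
  have hnP : n ≤ lo f (Pr S) := by
    have h1 : lo f ⊤ = lo f (Pr S) ⊔ lo f (F ∙ ((e, 0) : W × W)) := by
      rw [← hspan]
      refine lo_sup f hsup ?_
      refine le_antisymm ?_ bot_le
      rintro v ⟨h2, h1⟩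
      obtain ⟨c, rfl⟩ := Submodule.mem_span_singleton.mp h1
      by_cases hc : c = 0
      · rw [hc, zero_smul]; exact Submodule.zero_mem _
      · exfalso
        apply he
        have h3 : c • e ∈ LinearMap.range S := h2.1
        have h4 : e = c⁻¹ • (c • e) := by rw [smul_smul, inv_mul_cancel₀ hc, one_smul]
        rw [h4]
        exact Submodule.smul_mem _ _ h3
    have h2 : lo f (F ∙ ((e, 0) : W × W)) ≤ f (mk (F ∙ ((e, 0) : W × W)) (Or.inl fe)) := by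
      refine sSup_le ?_
      rintro a ⟨A, hA, hA2, hA3, rfl⟩
      exact f_mono f hsup (mk_le.mpr hA3)
    have h3 : lo f (Pr S) ≤ f (mk (Pr S) (Or.inr hfin)) :=
      (lo_le_hi f hsup _).trans (hi_le f _ hfin le_rfl)
    calc n ≤ (lo f (Pr S) ⊔ f (mk (F ∙ ((e, 0) : W × W)) (Or.inl fe))) ⊓
          f (mk (Pr S) (Or.inr hfin)) := by
          rw [hn, h1]
          exact inf_le_inf (sup_le_sup le_rfl h2) (hi_le f _ hfin bot_le)
      _ = lo f (Pr S) ⊔ (f (mk (F ∙ ((e, 0) : W × W)) (Or.inl fe)) ⊓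
          f (mk (Pr S) (Or.inr hfin))) := hmod _ _ _ h3
      _ ≤ lo f (Pr S) := sup_le le_rfl (heq.trans (hbotlo _))
  -- the four pairs
  have dE : Submodule.prod (⊤ : Submodule F W) ⊥ ⊔ Gr (LinearMap.id : W →ₗ[F] W) = ⊤ := by
    have := range_sup_Gr (LinearMap.id : W →ₗ[F] W)
    rw [LinearMap.range_id, Pr_id] at this
    exact this
  have dO : Submodule.prod (⊥ : Submodule F W) ⊤ ⊔ Gr (LinearMap.id : W →ₗ[F] W) = ⊤ := by
    rw [bot_sup_Gr, Pr_id]
  have c1 := compl_pair f hsup hinf hmod (prod_inf_Gr (LinearMap.id : W →ₗ[F] W) ⊤) n hn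
    (by rw [dE, hn]; exact inf_le_left)
  have c2 := compl_pair f hsup hinf hmod
    (bot_prod_inf_Gr (LinearMap.id : W →ₗ[F] W) (fun _ _ h => h)) n hn
    (by rw [dO, hn]; exact inf_le_left)
  have c3 := compl_pair f hsup hinf hmod (bot_prod_inf_Gr S hS) n hn
    (by rw [bot_sup_Gr]; exact hnP)
  have c4 := compl_pair f hsup hinf hmod (prod_inf_Gr S (LinearMap.range S)) n hn
    (by rw [range_sup_Gr]; exact hnP)
  rw [dE] at c1
  rw [dO] at c2
  rw [bot_sup_Gr] at c3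
  rw [range_sup_Gr] at c4
  have hle : Submodule.prod (LinearMap.range S) (⊥ : Submodule F W) ≤ Submodule.prod ⊤ ⊥ :=
    Submodule.prod_mono le_top le_rfl
  have key := hdf _ _ _ _ _ (c4.1.trans c3.1.symm) (c4.2.trans c3.2.symm)
    (c2.1.trans c1.1.symm) (c2.2.trans c1.2.symm) (sup_le_sup (lo_mono f hle) le_rfl)
  -- `e` is below `E` but not below `E'`
  have h5 : f (mk (F ∙ ((e, 0) : W × W)) (Or.inl fe)) ≤ lo f (Submodule.prod ⊤ ⊥) ⊔ n := by
    refine (le_lo f _ fe ?_).trans le_sup_left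
    rw [Submodule.span_singleton_le_iff_mem]
    exact ⟨trivial, rfl⟩
  rw [← key] at h5
  have h6 : lo f (Submodule.prod (LinearMap.range S) ⊥) ⊔ n ≤ f (mk (Pr S) (Or.inr hfin)) := by
    refine sup_le ?_ ?_
    · exact (lo_le_hi f hsup _).trans (hi_le f _ hfin (Submodule.prod_mono le_rfl bot_le))
    · rw [hn]
      exact inf_le_right.trans (hi_le f _ hfin bot_le)
  have h7 := h5.trans h6
  have h8 : f (mk (F ∙ ((e, 0) : W × W)) (Or.inl fe)) = f (mk ⊥ (Or.inl inferInstance)) := by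
    refine le_antisymm ((le_inf le_rfl h7).trans heq) ?_
    exact f_mono f hsup (mk_le.mpr bot_le)
  have h9 := congrArg Subtype.val (hf h8)
  have h10 : (F ∙ ((e, 0) : W × W)) = ⊥ := h9
  rw [Submodule.span_singleton_eq_bot] at h10
  have h11 : e = 0 := congrArg Prod.fst h10
  apply he
  rw [h11]
  exact Submodule.zero_mem _

end Pool.Agent.Q15.CQ
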